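import Pool.Agent.ResIdeal.Defs
import Pool.Agent.ResIdeal.Lower

/-!
# Question 2 has a negative answer over every field

A Cohen-Macaulay codimension 2 subspace arrangement in `K^4` whose ideal is not the residue ideal
of any free arrangement: the fifteen planes `ℓ_i = ℓ_j = 0` cut out by six linear forms any three
of which are independent. Its ideal needs six generators, while the residue ideal of a free
arrangement in `K^5` is generated by five elements.
-/

set_option autoImplicit false

universe u

open Pool.Agent.ResIdeal

theorem Pool.Agent.Results.MP_97ec3f_ag.FreeNegative.result (K : Type u) [Field K] :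
    ∃ B : Finset (Submodule K (Fin 4 → K)),
      (∀ X ∈ B, Module.finrank K X = 2) ∧
      IsCohenMacaulayRing (MvPolynomial (Fin 4) K ⧸ definingIdeal B) ∧
      ∀ (ℓ : ℕ) (A : Arrangement K ℓ), A.IsFree →
        ∀ (i : Fin A.card) (φ : (Fin 4 → K) ≃ₗ[K] A.hyperplane i),
          A.residueIdeal i φ ≠ definingIdeal B := by
  refine ⟨starArr K, fun X hX => finrank_of_mem_starArr hX, isCM_starArr, ?_⟩
  intro ℓ A hA i φ heq
  obtain ⟨m, hm, F, hF⟩ := A.residueIdeal_gens i φ hA
  have h6 : 6 ≤ m := six_le_of_gens F (by rw [← heq, hF])
  -- the dimension of the ambient space is at most five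
  have hℓ : ℓ ≤ 5 := by
    let g : (Fin ℓ → K) →ₗ[K] K :=
      { toFun := fun x => A.α i ⬝ᵥ x
        map_add' := fun x y => dotProduct_add _ _ _
        map_smul' := fun c x => by simp [dotProduct_smul] }
    have hker : LinearMap.ker g = A.hyperplane i := by
      ext x
      rfl
    have h1 := LinearMap.finrank_range_add_finrank_ker g
    have h2 : Module.finrank K (LinearMap.range g) ≤ 1 := by
      refine (Submodule.finrank_le _).trans ?_
      rw [Module.finrank_self]
    have h3 : Module.finrank K (A.hyperplane i) = 4 := by
      rw [← φ.finrank_eq, Module.finrank_fintype_fun_eq_card, Fintype.card_fin]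
    rw [hker, h3, Module.finrank_fintype_fun_eq_card, Fintype.card_fin] at h1
    omega
  omega
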