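import Pool.Agent.Hhelper83.ResQ1.Positive
import Pool.Agent.Hhelper83.ResQ1.Negative

/-!
# Question 1: which fields realise all codimension two subspace arrangements

Over an infinite field every codimension two subspace arrangement `B` is the residue arrangement of
some `(A, H)`: for each `X ∈ B` take two generic linear forms vanishing on `X`, and let `A` consist
of `z`, of all the chosen forms `L`, of all `L - z`, and of the differences `L' - L` of forms
belonging to different members of `B`. Over a finite field the arrangement of all codimension two
subspaces of `K^n` is not realised for large `n`: by the Hales-Jewett theorem there is a pencil of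
hyperplanes of `H` which is entirely contained in `A^H` or disjoint from it.
-/

set_option autoImplicit false

universe u

open Pool.Agent.ResIdeal

theorem Pool.Agent.Results.MP_97ec3f_ag.RealiseIffInfinite.result (K : Type u) [Field K] :
    (∀ (n : ℕ) (B : Finset (Submodule K (Fin n → K))),
      (∀ X ∈ B, Module.finrank K X + 2 = n) →
      ∃ (ℓ : ℕ) (A : Arrangement K ℓ) (i : Fin A.card) (φ : (Fin n → K) ≃ₗ[K] A.hyperplane i),
        A.residueIdeal i φ = definingIdeal B) ↔ Infinite K := by
  constructor
  · intro h
    by_contra hK
    have : Finite K := not_infinite_iff_finite.mp hK
    obtain ⟨n, B, hB, hne⟩ := exists_counterexample K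
    obtain ⟨ℓ, A, i, φ, heq⟩ := h n B hB
    exact hne ℓ A i φ heq
  · intro hK n B hB
    exact realise B hB
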